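import Pool.Agent.Q138.PS.UV
import Pool.Agent.Q138.PS.UC
import Pool.Agent.Results.MP_778b46_nt.AllPairsNearPositive

/-!
# For every pair `(a, b)`, almost a positive proportion of the numbers `2 ⌊α P(i)⌋` are `(a, b)`-representable

For all natural numbers `a`, `b` there is `κ > 0` such that the following holds. Let `q ≥ 2`. Outside a set of real numbers of
Hausdorff dimension at most `q / (q + 1 / (q 2 ^ (q - 1)))` (that is `8 / 9` for `q = 2`), which does not depend on `a`, `b`, every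
`α > 0` has an `η > 0` such that for all large `N` and ALL integral polynomials `P` of degree `q` with positive leading coefficient
and coefficients of size at most `N ^ η`, at least `κ N / ((log log N) ^ (2 b) log log log N)` of the `i ≤ N` are such that
`2 n`, `n = ⌊α P(i)⌋`, is a sum of two distinct numbers, an `(a + 1)`-fold iterated prime and a `(b + 1)`-fold iterated prime.
-/

set_option autoImplicit false

namespace Pool.Agent.Results.MP_778b46_nt.AllPairsAlongRealMultiples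

open Finset Filter Topology
open Pool.Agent.Q138.PS

/-- `2 n` is a sum of two distinct numbers, an `(a + 1)`-fold iterated prime and a `(b + 1)`-fold iterated prime -/
def Representable (a b n : ℕ) : Prop :=
  ∃ u v : ℕ, 0 < u ∧ 0 < v ∧
    Nat.iterate (fun k : ℕ => Nat.nth Nat.Prime (k - 1)) (a + 1) u ≠
      Nat.iterate (fun k : ℕ => Nat.nth Nat.Prime (k - 1)) (b + 1) v ∧
    Nat.iterate (fun k : ℕ => Nat.nth Nat.Prime (k - 1)) (a + 1) u +
      Nat.iterate (fun k : ℕ => Nat.nth Nat.Prime (k - 1)) (b + 1) v = 2 * n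

open Classical in
/-- the number of the `1 ≤ i ≤ N` for which `⌊α P(i)⌋` is `Representable a b` -/
noncomputable def count (a b : ℕ) (α : ℝ) (P : Polynomial ℤ) (N : ℕ) : ℕ :=
  ((Icc 1 N).filter fun i : ℕ => Representable a b ⌊α * ((P.eval (i : ℤ) : ℤ) : ℝ)⌋₊).card

theorem count_eq (a b : ℕ) (α : ℝ) (P : Polynomial ℤ) (N : ℕ) : (count a b α P N : ℝ) = cnP (Representable a b) α P N := by
  classical
  unfold count cnP cn
  refine congrArg _ (congrArg _ ?_)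
  ext n
  simp only [mem_filter]

theorem rep_pos {a b n : ℕ} (h : Representable a b n) : 1 ≤ n := by
  obtain ⟨u, v, -, -, -, h1⟩ := h
  rw [Function.iterate_succ_apply', Function.iterate_succ_apply'] at h1
  have h2 := (Nat.prime_nth_prime ((fun k : ℕ => Nat.nth Nat.Prime (k - 1))^[a] u - 1)).two_le
  omega

theorem many (a b : ℕ) : ∃ κ : ℝ, 0 < κ ∧ κ ≤ 1 ∧
    ∀ᶠ y : ℕ in atTop, κ / (L2 ((y : ℝ) + BC) ^ (2 * b) * L3 ((y : ℝ) + BC)) * y ≤ cn (Representable a b) y := by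
  classical
  obtain ⟨c, hc, h⟩ := Pool.Agent.Results.MP_778b46_nt.AllPairsNearPositive.result a b
  refine ⟨min c 1, by positivity, min_le_right _ _, ?_⟩
  filter_upwards [h, tendsto_natCast_atTop_atTop.eventually_ge_atTop BC] with y hy hB
  have hXy : (y : ℝ) ≤ y + BC := by
    have := BC_pos
    linarith
  have h2 := L2_ge1 hB
  have h3 := L3_ge1 hB
  have h4 := L2_mono hB hXy
  have h5 := L3_mono hB hXy
  have p2 : 0 < L2 (y : ℝ) := by linarith
  have p3 : 0 < L3 (y : ℝ) := by linarith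
  have p4 : 0 < L2 ((y : ℝ) + BC) := by linarith
  have p5 : 0 < L3 ((y : ℝ) + BC) := by linarith
  have h1 : min c 1 / (L2 ((y : ℝ) + BC) ^ (2 * b) * L3 ((y : ℝ) + BC)) * y ≤ c * y / (L2 (y : ℝ) ^ (2 * b) * L3 (y : ℝ)) := by
    calc min c 1 / (L2 ((y : ℝ) + BC) ^ (2 * b) * L3 ((y : ℝ) + BC)) * y ≤ c / (L2 (y : ℝ) ^ (2 * b) * L3 (y : ℝ)) * y := by
          gcongr
          exact min_le_left _ _
      _ = c * y / (L2 (y : ℝ) ^ (2 * b) * L3 (y : ℝ)) := by ring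
  refine h1.trans (le_trans hy ?_)
  rw [cn_ncard]
  refine Nat.cast_le.2 (Set.ncard_le_ncard ?_ ((Set.finite_Iic y).subset fun n hn => hn.2.1))
  rintro n ⟨h6, h7⟩
  exact ⟨rep_pos h7, h6, h7⟩

/-- **Theorem.** -/
theorem result :
    ∃ κ : ℕ → ℕ → ℝ, (∀ a b, 0 < κ a b) ∧ ∀ q : ℕ, 2 ≤ q →
    ∃ E : Set ℝ, dimH E ≤ ENNReal.ofReal (q / (q + 1 / ((q : ℝ) * 2 ^ (q - 1)))) ∧ ∀ α : ℝ, 0 < α → α ∉ E → ∀ a b : ℕ,
      ∃ η : ℝ, 0 < η ∧ ∀ᶠ N : ℕ in atTop, ∀ P : Polynomial ℤ, P.natDegree = q → 0 < P.leadingCoeff →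
        (∀ j, |((P.coeff j : ℤ) : ℝ)| ≤ (N : ℝ) ^ η) →
        κ a b * N / (Real.log (Real.log N) ^ (2 * b) * Real.log (Real.log (Real.log N))) ≤ (count a b α P N : ℝ) := by
  classical
  choose κ hκ hκ1 h using many
  refine ⟨fun a b => κ a b / (4 * 4 ^ b), fun a b => by have := hκ a b; positivity, fun q hq => ?_⟩
  have hB : ∀ y : ℕ, BC ≤ (y : ℝ) + BC := fun y => by
    have : (0 : ℝ) ≤ y := Nat.cast_nonneg y
    linarith
  obtain ⟨E, hE, hg⟩ := low_slow (ι := ℕ × ℕ) q hq (fun i => Representable i.1 i.2)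
    (fun i y => κ i.1 i.2 / (L2 ((y : ℝ) + BC) ^ (2 * i.2) * L3 ((y : ℝ) + BC)))
    (fun i y => by
      have h1 := hκ i.1 i.2
      have h2 := L2_ge1 (hB y)
      have h3 := L3_ge1 (hB y)
      positivity) (fun i y => by
      have h2 := L2_ge1 (hB y)
      have h3 := L3_ge1 (hB y)
      rw [div_le_one (by positivity)]
      have h4 : (1 : ℝ) ≤ L2 ((y : ℝ) + BC) ^ (2 * i.2) := one_le_pow₀ h2
      have h5 := hκ1 i.1 i.2
      nlinarith) (fun i a b hab => by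
      have h1 := hκ i.1 i.2
      have hab' : (a : ℝ) + BC ≤ (b : ℝ) + BC := by
        have : (a : ℝ) ≤ b := by exact_mod_cast hab
        linarith
      have h2 := L2_mono (hB a) hab'
      have h3 := L3_mono (hB a) hab'
      have h4 := L2_ge1 (hB a)
      have h5 := L3_ge1 (hB a)
      have p2 : 0 < L2 ((a : ℝ) + BC) := by linarith
      have p3 : 0 < L3 ((a : ℝ) + BC) := by linarith
      have p4 : 0 < L2 ((b : ℝ) + BC) := by linarith
      have p5 : 0 < L3 ((b : ℝ) + BC) := by linarith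
      show κ i.1 i.2 / (L2 ((b : ℝ) + BC) ^ (2 * i.2) * L3 ((b : ℝ) + BC)) ≤
        κ i.1 i.2 / (L2 ((a : ℝ) + BC) ^ (2 * i.2) * L3 ((a : ℝ) + BC))
      gcongr) (fun i η hη => by
      filter_upwards [log_small q (2 * i.2 + 1) (hκ i.1 i.2) hη] with N hN
      refine hN.trans ?_
      have h1 := hκ i.1 i.2
      have hBN := hB (N ^ (q + 1))
      have h2 := L2_ge1 hBN
      have h3 := L3_ge1 hBN
      have h4 := L2_le hBN
      have h5 := (L3_le hBN).trans (L2_le hBN)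
      have p2 : 0 < L2 (((N ^ (q + 1) : ℕ) : ℝ) + BC) := by linarith
      have p3 : 0 < L3 (((N ^ (q + 1) : ℕ) : ℝ) + BC) := by linarith
      have h6 : L2 (((N ^ (q + 1) : ℕ) : ℝ) + BC) ^ (2 * i.2) * L3 (((N ^ (q + 1) : ℕ) : ℝ) + BC) ≤
          L1 (((N ^ (q + 1) : ℕ) : ℝ) + BC) ^ (2 * i.2 + 1) := by
        rw [pow_succ (L1 (((N ^ (q + 1) : ℕ) : ℝ) + BC)) (2 * i.2)]
        have h7 := L1_ge1 hBN
        have p7 : 0 < L1 (((N ^ (q + 1) : ℕ) : ℝ) + BC) := by linarith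
        gcongr
      gcongr) (fun i => h i.1 i.2)
  refine ⟨E, hE, fun α hα hαE a b => ?_⟩
  obtain ⟨η, hη, hN⟩ := hg α hα hαE (a, b)
  refine ⟨η, hη, ?_⟩
  filter_upwards [hN, it_logs q] with N g hlogs
  intro P hdeg hlead hco
  rw [count_eq]
  refine le_trans ?_ (g P hdeg hlead hco)
  obtain ⟨hBN, -, e2, e3, -⟩ := hlogs
  have hBN' := hB (N ^ (q + 1))
  have h1 := hκ a b
  have h2 := L2_ge1 hBN'
  have h3 := L3_ge1 hBN'
  have h4 := L2_ge1 hBN
  have h5 := L3_ge1 hBN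
  have p2 : 0 < L2 (((N ^ (q + 1) : ℕ) : ℝ) + BC) := by linarith
  have p3 : 0 < L3 (((N ^ (q + 1) : ℕ) : ℝ) + BC) := by linarith
  have p4 : 0 < L2 (N : ℝ) := by linarith
  have p5 : 0 < L3 (N : ℝ) := by linarith
  show κ a b / (4 * 4 ^ b) * N / (L2 (N : ℝ) ^ (2 * b) * L3 (N : ℝ)) ≤
    κ a b / (L2 (((N ^ (q + 1) : ℕ) : ℝ) + BC) ^ (2 * b) * L3 (((N ^ (q + 1) : ℕ) : ℝ) + BC)) / 2 * N
  have h6 : κ a b / ((2 * L2 (N : ℝ)) ^ (2 * b) * (2 * L3 (N : ℝ))) ≤
      κ a b / (L2 (((N ^ (q + 1) : ℕ) : ℝ) + BC) ^ (2 * b) * L3 (((N ^ (q + 1) : ℕ) : ℝ) + BC)) := by gcongr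
  have e4 : (2 * L2 (N : ℝ)) ^ (2 * b) = 4 ^ b * L2 (N : ℝ) ^ (2 * b) := by
    rw [mul_pow, pow_mul]
    norm_num
  calc κ a b / (4 * 4 ^ b) * N / (L2 (N : ℝ) ^ (2 * b) * L3 (N : ℝ)) =
      κ a b / ((2 * L2 (N : ℝ)) ^ (2 * b) * (2 * L3 (N : ℝ))) / 2 * N := by
        rw [e4]
        field_simp
        ring
    _ ≤ _ := by gcongr

end Pool.Agent.Results.MP_778b46_nt.AllPairsAlongRealMultiples
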