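import Pool.Agent.Q197.IU.Total

/-!
# The number of the representations of all types in Cramér's random model

`A` is Cramér's random model of the primes: the events `n ∈ A`, `n ≥ 3`, are independent with the probabilities
`1 / log n`; `el S m` is the `m`-th element `≥ 3` of `S`, the model of the `m`-th prime, and `(el S)^[a + 1] x` is the
model of the `x`-th `a`-prime. Almost surely, for all `a`, `b` every large `m` is the sum of an `a`-prime and a different
`b`-prime, the number of the representations is asymptotic to `m / (log m) ^ (a + b + 2)`, and this is uniform in the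
range `(a + b) ^ 2 = o (log m / log log m)`.
-/

set_option autoImplicit false

namespace Pool.Agent.Results.MP_778b46_nt.CountLawAllTypes

open MeasureTheory Filter Pool.Agent.Q120.MF Pool.Agent.Q197.CI
open scoped Topology

/-- the number of the representations of `m` of type `(a, b)` -/
noncomputable def reps (S : Set ℕ) (a b m : ℕ) : ℕ :=
  {v : ℕ × ℕ | 1 ≤ v.1 ∧ 1 ≤ v.2 ∧ (el S)^[a + 1] v.1 + (el S)^[b + 1] v.2 = m ∧
    (el S)^[a + 1] v.1 ≠ (el S)^[b + 1] v.2}.ncard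

lemma it_pos {S : Set ℕ} (hS : S.Infinite) (a : ℕ) {x : ℕ} (hx : 1 ≤ x) : 1 ≤ (el S)^[a] x := by
  induction a generalizing x with
  | zero => exact hx
  | succ a ih =>
    rw [Function.iterate_succ_apply]
    exact ih (by have := el_ge hS hx; omega)

lemma it_lt {S : Set ℕ} (hS : S.Infinite) (a : ℕ) {x y : ℕ} (hx : 1 ≤ x) (h : x < y) :
    (el S)^[a] x < (el S)^[a] y := by
  induction a generalizing x y with
  | zero => exact h
  | succ a ih =>
    rw [Function.iterate_succ_apply, Function.iterate_succ_apply]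
    exact ih (by have := el_ge hS hx; omega) (el_lt_el hS hx h)

lemma it_inj {S : Set ℕ} (hS : S.Infinite) (a : ℕ) {x y : ℕ} (hx : 1 ≤ x) (hy : 1 ≤ y)
    (h : (el S)^[a] x = (el S)^[a] y) : x = y := by
  by_contra hne
  rcases lt_or_gt_of_ne hne with h1 | h1
  · have := it_lt hS a hx h1
    omega
  · have := it_lt hS a hy h1
    omega

lemma reps_eq {S : Set ℕ} (hS : S.Infinite) (a b m : ℕ) : reps S a b m = (Q197.IU.Rf S a b m).card := by
  classical
  have h1 : ((Q197.IU.Rf S a b m : Finset ℕ) : Set ℕ) = (fun v : ℕ × ℕ => (el S)^[a + 1] v.1) ''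
      {v : ℕ × ℕ | 1 ≤ v.1 ∧ 1 ≤ v.2 ∧ (el S)^[a + 1] v.1 + (el S)^[b + 1] v.2 = m ∧
        (el S)^[a + 1] v.1 ≠ (el S)^[b + 1] v.2} := by
    ext u
    rw [Finset.mem_coe]
    unfold Q197.IU.Rf
    rw [Finset.mem_filter, Finset.mem_range, isPr_iff hS, isPr_iff hS]
    simp only [Set.mem_image, Set.mem_ofPred_eq, Prod.exists]
    constructor
    · rintro ⟨h1, ⟨x, hx, rfl⟩, ⟨y, hy, h2⟩, h3⟩
      exact ⟨x, y, ⟨hx, hy, by omega, by omega⟩, rfl⟩
    · rintro ⟨x, y, ⟨hx, hy, h2, h3⟩, rfl⟩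
      exact ⟨by omega, ⟨x, hx, rfl⟩, ⟨y, hy, by omega⟩, by omega⟩
  unfold reps
  rw [← Set.ncard_coe_finset, h1, Set.InjOn.ncard_image]
  rintro ⟨x, y⟩ ⟨hx, hy, h2, _⟩ ⟨x', y'⟩ ⟨hx', hy', h2', _⟩ he
  simp only at hx hy h2 hx' hy' h2' he
  have e1 := it_inj hS (a + 1) hx hx' he
  subst e1
  have e2 := it_inj hS (b + 1) hy hy' (by omega)
  subst e2
  rfl

/-- **The number of the representations.** -/
theorem result :
    (∃ (Ω : Type) (_ : MeasurableSpace Ω) (μ : Measure Ω) (A : Ω → Set ℕ), IsProbabilityMeasure μ ∧ IsCramer μ A) ∧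
    ∀ (Ω : Type) [MeasurableSpace Ω] (μ : Measure Ω) [IsProbabilityMeasure μ] (A : Ω → Set ℕ), IsCramer μ A →
      ∀ᵐ ω ∂μ,
        -- the number of the representations of type `(a, b)`, for every pair `(a, b)` and all `m → ∞`
        (∀ a b : ℕ, Tendsto (fun m : ℕ => (reps (A ω) a b m : ℝ) * Real.log m ^ (a + b + 2) / m) atTop (𝓝 1)) ∧
        -- uniformly in all pairs `(a, b)` with `(a + b) ^ 2 = o (log m / log log m)`
        ∀ ε : ℝ, 0 < ε → ∃ δ : ℝ, 0 < δ ∧ ∀ᶠ m : ℕ in atTop, ∀ a b : ℕ,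
          ((a : ℝ) + b) ^ 2 * Real.log (Real.log m) ≤ δ * Real.log m →
            |(reps (A ω) a b m : ℝ) * Real.log m ^ (a + b + 2) / m - 1| ≤ ε := by
  refine ⟨⟨_, _, cramerMeasure, cramerSet, inferInstance, isCramer⟩, ?_⟩
  intro Ω _ μ _ A hA
  filter_upwards [Q197.IU.ae_uni hA, ae_infinite hA] with ω hU hS
  have h2 : ∀ ε : ℝ, 0 < ε → ∃ δ : ℝ, 0 < δ ∧ ∀ᶠ m : ℕ in atTop, ∀ a b : ℕ,
      ((a : ℝ) + b) ^ 2 * Real.log (Real.log m) ≤ δ * Real.log m →
        |(reps (A ω) a b m : ℝ) * Real.log m ^ (a + b + 2) / m - 1| ≤ ε := by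
    intro ε hε
    obtain ⟨δ, hδ, h1⟩ := hU ε hε
    refine ⟨δ, hδ, ?_⟩
    filter_upwards [h1] with m h3 a b hab
    rw [reps_eq hS]
    exact h3 a b hab
  refine ⟨fun a b => ?_, h2⟩
  have hlim : Tendsto (fun n : ℕ => Real.log (Real.log (n : ℝ)) / Real.log n) atTop (𝓝 0) := by
    have := ll_pow_div 1
    refine this.congr (fun n => ?_)
    rw [pow_one]
  rw [Metric.tendsto_nhds]
  intro ε hε
  obtain ⟨δ, hδ, h1⟩ := h2 (ε / 2) (by positivity)
  filter_upwards [h1, hlim.eventually_lt_const (show 0 < δ / (((a : ℝ) + b) ^ 2 + 1) by positivity),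
    Q197.IT.log_nat_top.eventually_ge_atTop 1, Q197.IT.loglog_nat_top.eventually_ge_atTop 0] with m h3 h4 h5 h6
  rw [Real.dist_eq]
  refine lt_of_le_of_lt (h3 a b ?_) (by linarith)
  rw [div_lt_div_iff₀ (by linarith) (by positivity)] at h4
  nlinarith

end Pool.Agent.Results.MP_778b46_nt.CountLawAllTypes
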