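import Pool.Agent.Q58.RM.Final

/-!
# MP_778b46_nt: all pairs (a, b) in the random model of the iterated primes

The `a`-primes form a decreasing sequence of sets of primes (all primes for `a = 0`), the relative density
of the `a`-primes in the primes near `x` is `1 / log ^ a x`. We construct ONE decreasing sequence of sets
of primes `A 0 ⊇ A 1 ⊇ A 2 ⊇ …`, `A 0` the set of all primes, with these relative densities in all
intervals `(2 ^ i, y]`, `y ≤ 2 ^ (i + 1)`, such that for all `a`, `b` and ALL large even `N`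
(`x = 2 ^ i`, `4 x ≤ N ≤ 8 x`)

* the number of the pairs `p ∈ A a`, `N - p ∈ A b`, `x < p ≤ 2 x` is `log ^ (-a-b) N` times the number of
  the pairs of primes, up to `o(order)`, `order = (N / φ N) N / log ^ (a + b + 2) N`;
* the number of the `p ∈ A a` of `(x, 2 x]` such that `N - p` is a prime or a product of two primes, with
  no prime factor up to `(8 x) ^ (1 / 9)`, has the exact order of magnitude.

Hence for the sequence `A` question Q1, with the right order of the number of the representations, has the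
same answer for all pairs `(a, b)`, that of `(0, 0)` (Goldbach's problem).
-/

set_option autoImplicit false

namespace Pool.Agent.Results.MP_778b46_nt.NestedRandomPrimes

/-- the number of the `p ∈ X` with `x < p ≤ 2 x` and `N - p ∈ Y` -/
noncomputable def pairs (X Y : Set ℕ) (x N : ℕ) : ℕ := Set.ncard {p | p ∈ X ∧ x < p ∧ p ≤ 2 * x ∧ N - p ∈ Y}

/-- the order of magnitude `(N / φ N) N / log ^ (k + 2) N` -/
noncomputable def order (k N : ℕ) : ℝ := (N : ℝ) / N.totient * (N / Real.log N ^ (k + 2))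

/-- the primes and the products of two primes without prime factors up to `z` -/
def P2 (z : ℝ) : Set ℕ :=
  {n | (n.Prime ∨ ∃ a b : ℕ, a.Prime ∧ b.Prime ∧ n = a * b) ∧ ∀ q : ℕ, q.Prime → q ∣ n → z < q}

/-- `φ x N` holds for all large even `N` and all `x = 2 ^ i` with `4 x ≤ N ≤ 8 x` -/
def Large (φ : ℕ → ℕ → Prop) : Prop :=
  ∃ i₀ : ℕ, ∀ i : ℕ, i₀ ≤ i → ∀ N : ℕ, Even N → 4 * 2 ^ i ≤ N → N ≤ 8 * 2 ^ i → φ (2 ^ i) N

/-- the number of the pairs is at least of the order `order k` for all large even numbers -/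
def RightOrder (X Y : Set ℕ) (k : ℕ) : Prop := ∃ δ : ℝ, 0 < δ ∧ Large (fun x N => δ * order k N ≤ pairs X Y x N)

theorem order_eq (k : ℕ) {N : ℕ} : (1 / Real.log N) ^ k * (N / N.totient * (N / Real.log N ^ 2)) = order k N := by
  unfold order
  rw [one_div, inv_pow, pow_add]
  rcases eq_or_ne (Real.log N) 0 with h | h
  · rw [h]
    simp
  · field_simp

/-- **All pairs `(a, b)` in the random model of the iterated primes.** -/
theorem result : ∃ A : ℕ → Set ℕ, A 0 = {p | p.Prime} ∧ Antitone A ∧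
    (∀ (a : ℕ) (ε : ℝ), 0 < ε → ∃ i₀ : ℕ, ∀ i : ℕ, i₀ ≤ i → ∀ y : ℕ, y ≤ 2 * 2 ^ i →
      |(Set.ncard {p | p ∈ A a ∧ 2 ^ i < p ∧ p ≤ y} : ℝ) -
        Set.ncard {p | p ∈ A 0 ∧ 2 ^ i < p ∧ p ≤ y} / Real.log (2 ^ i) ^ a| ≤
          ε * (2 ^ i / Real.log (2 ^ i) ^ (a + 1))) ∧
    (∀ (a b : ℕ) (ε : ℝ), 0 < ε → Large (fun x N =>
      |(pairs (A a) (A b) x N : ℝ) - pairs (A 0) (A 0) x N / Real.log N ^ (a + b)| ≤ ε * order (a + b) N)) ∧
    (∃ c C : ℝ, 0 < c ∧ 0 < C ∧ ∀ a : ℕ, Large (fun x N =>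
      c * order a N ≤ pairs (A a) (P2 (((8 * x : ℕ) : ℝ) ^ (1 / 9 : ℝ))) x N ∧
      (pairs (A a) (P2 (((8 * x : ℕ) : ℝ) ^ (1 / 9 : ℝ))) x N : ℝ) ≤ C * order a N)) ∧
    (∀ a b : ℕ, RightOrder (A a) (A b) (a + b) ↔ RightOrder (A 0) (A 0) 0) ∧
    (RightOrder (A 0) (A 0) 0 → ∀ a b : ℕ, ∃ M : ℕ, ∀ n : ℕ, M < n → ∃ p ∈ A a, ∃ q ∈ A b, p ≠ q ∧ p + q = 2 * n) := by
  classical
  obtain ⟨B, h0, ha, hg⟩ := Pool.Agent.Q58.RM.model_good
  have hL : ∀ i : ℕ, Pool.Agent.Q58.RM.L i = Real.log (2 ^ i) := fun i => by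
    unfold Pool.Agent.Q58.RM.L
    push_cast
    rfl
  have hlev0 : Pool.Agent.Q58.RM.lev B 0 = {p | p.Prime} := Pool.Agent.Q58.RM.lev_zero h0
  have hwin : ∀ (a i y : ℕ), y ≤ 2 * 2 ^ i →
      Set.ncard {p | p ∈ Pool.Agent.Q58.RM.lev B a ∧ 2 ^ i < p ∧ p ≤ y} = ((B i a).filter (fun p => p ≤ y)).card := by
    intro a i y hy
    rw [← Set.ncard_coe_finset]
    congr 1
    ext p
    rw [Finset.coe_filter, Set.mem_ofPred_eq, Set.mem_ofPred_eq]
    constructor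
    · rintro ⟨h1, h2, h3⟩
      exact ⟨(Pool.Agent.Q58.RM.mem_lev h0 ha h2 (h3.trans hy)).1 h1, h3⟩
    · rintro ⟨h1, h2⟩
      obtain ⟨⟨h3, -⟩, -⟩ := Pool.Agent.Q58.RM.P_mem.1 (Pool.Agent.Q58.RM.sub_Ioc h0 ha i a h1)
      exact ⟨⟨i, h1⟩, h3, h2⟩
  have hgold : ∀ i N : ℕ, pairs (Pool.Agent.Q58.RM.lev B 0) (Pool.Agent.Q58.RM.lev B 0) (2 ^ i) N =
      Pool.Agent.Q253.Thin.gold (Pool.Agent.Q58.RM.P i) N := by
    intro i N
    have h1 := Pool.Agent.Q58.RM.gold_eq h0 ha i N 0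
    rw [h0] at h1
    rw [← h1, ← hlev0]
    rfl
  have hcount : ∀ (a b : ℕ) (ε : ℝ), 0 < ε → Large (fun x N =>
      |(pairs (Pool.Agent.Q58.RM.lev B a) (Pool.Agent.Q58.RM.lev B b) x N : ℝ) -
        pairs (Pool.Agent.Q58.RM.lev B 0) (Pool.Agent.Q58.RM.lev B 0) x N / Real.log N ^ (a + b)| ≤
          ε * order (a + b) N) := by
    intro a b ε hε
    obtain ⟨j₀, hj₀⟩ := Pool.Agent.Q58.RM.count h0 ha hg a b hε
    refine ⟨j₀, fun i hi N hNe hN4 hN8 => ?_⟩
    have h1 := hj₀ i hi N hNe hN4 hN8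
    rw [order_eq, ← hgold, one_div_pow, one_div_mul_eq_div] at h1
    exact h1
  have hord : ∀ (k : ℕ) {N : ℕ}, 1 < N → order 0 N = Real.log N ^ k * order k N := by
    intro k N hN
    have hl : 0 < Real.log N := Real.log_pos (by exact_mod_cast hN)
    unfold order
    rw [zero_add, pow_add]
    field_simp
  have hord0 : ∀ (k : ℕ) {N : ℕ}, 1 < N → 0 < order k N := by
    intro k N hN
    have hl : 0 < Real.log N := Real.log_pos (by exact_mod_cast hN)
    have hN0 : (0 : ℝ) < N := by exact_mod_cast (by omega : 0 < N)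
    have hφ : (0 : ℝ) < N.totient := by exact_mod_cast Nat.totient_pos.2 (by omega)
    unfold order
    positivity
  have hN1 : ∀ {i N : ℕ}, 4 * 2 ^ i ≤ N → 1 < N := by
    intro i N h
    have : 0 < 2 ^ i := by positivity
    omega
  have hiff : ∀ a b : ℕ, RightOrder (Pool.Agent.Q58.RM.lev B a) (Pool.Agent.Q58.RM.lev B b) (a + b) ↔
      RightOrder (Pool.Agent.Q58.RM.lev B 0) (Pool.Agent.Q58.RM.lev B 0) 0 := by
    intro a b
    constructor
    · rintro ⟨δ, hδ, i₁, h1⟩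
      obtain ⟨i₂, h2⟩ := hcount a b (δ / 2) (by positivity)
      refine ⟨δ / 2, by positivity, max i₁ i₂, fun i hi N hNe hN4 hN8 => ?_⟩
      have k1 := h1 i ((le_max_left _ _).trans hi) N hNe hN4 hN8
      have k2 := (abs_le.1 (h2 i ((le_max_right _ _).trans hi) N hNe hN4 hN8)).2
      have hl : 0 < Real.log N := Real.log_pos (by exact_mod_cast hN1 hN4)
      have k3 : δ / 2 * order (a + b) N ≤
          pairs (Pool.Agent.Q58.RM.lev B 0) (Pool.Agent.Q58.RM.lev B 0) (2 ^ i) N / Real.log N ^ (a + b) := by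
        linarith
      rw [le_div_iff₀ (by positivity)] at k3
      show δ / 2 * order 0 N ≤ _
      rw [hord (a + b) (hN1 hN4)]
      refine le_trans (le_of_eq ?_) k3
      ring
    · rintro ⟨δ, hδ, i₁, h1⟩
      obtain ⟨i₂, h2⟩ := hcount a b (δ / 2) (by positivity)
      refine ⟨δ / 2, by positivity, max i₁ i₂, fun i hi N hNe hN4 hN8 => ?_⟩
      have k1 : δ * order 0 N ≤ pairs (Pool.Agent.Q58.RM.lev B 0) (Pool.Agent.Q58.RM.lev B 0) (2 ^ i) N :=
        h1 i ((le_max_left _ _).trans hi) N hNe hN4 hN8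
      have k2 := (abs_le.1 (h2 i ((le_max_right _ _).trans hi) N hNe hN4 hN8)).1
      have hl : 0 < Real.log N := Real.log_pos (by exact_mod_cast hN1 hN4)
      rw [hord (a + b) (hN1 hN4)] at k1
      have k3 : δ * order (a + b) N ≤
          pairs (Pool.Agent.Q58.RM.lev B 0) (Pool.Agent.Q58.RM.lev B 0) (2 ^ i) N / Real.log N ^ (a + b) := by
        rw [le_div_iff₀ (by positivity)]
        refine le_trans (le_of_eq ?_) k1
        ring
      show δ / 2 * order (a + b) N ≤ _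
      linarith
  refine ⟨Pool.Agent.Q58.RM.lev B, hlev0, ?_, ?_, hcount, ?_, hiff, ?_⟩
  · rintro a b hab p ⟨i, hi⟩
    exact ⟨i, ha i hab hi⟩
  · intro a ε hε
    obtain ⟨i₀, hi₀⟩ := Pool.Agent.Q58.RM.window hg a hε
    refine ⟨i₀, fun i hi y hy => ?_⟩
    have h1 := hi₀ i hi y hy
    rw [hwin a i y hy, hwin 0 i y hy, h0, ← hL]
    have h2 : (1 / Pool.Agent.Q58.RM.L i) ^ a * (2 ^ i / Pool.Agent.Q58.RM.L i) =
        2 ^ i / Pool.Agent.Q58.RM.L i ^ (a + 1) := by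
      rw [one_div_pow, pow_succ, one_div_mul_eq_div, div_div, mul_comm (Pool.Agent.Q58.RM.L i)]
    rw [h2, one_div_pow, one_div_mul_eq_div] at h1
    exact h1
  · obtain ⟨c, C, hc, hC, h⟩ := Pool.Agent.Q58.RM.chenCount hg
    refine ⟨c, C, hc, hC, fun a => ?_⟩
    obtain ⟨j₀, hj₀⟩ := h a
    refine ⟨j₀, fun i hi N hNe hN4 hN8 => ?_⟩
    have h1 := hj₀ i hi N hNe hN4 hN8
    rw [order_eq] at h1
    have h2 : pairs (Pool.Agent.Q58.RM.lev B a) (P2 (((8 * 2 ^ i : ℕ) : ℝ) ^ (1 / 9 : ℝ))) (2 ^ i) N =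
        Pool.Agent.Q253.Thin.chen (((8 * 2 ^ i : ℕ) : ℝ) ^ (1 / 9 : ℝ)) (B i a) N := by
      have h3 := Pool.Agent.Q58.RM.pairs_filter h0 ha i N a (P2 (((8 * 2 ^ i : ℕ) : ℝ) ^ (1 / 9 : ℝ)))
      unfold Pool.Agent.Q253.Thin.chen
      refine Eq.trans h3 ?_
      congr 1
    show c * order a N ≤ (pairs _ (P2 (((8 * 2 ^ i : ℕ) : ℝ) ^ (1 / 9 : ℝ))) (2 ^ i) N : ℝ) ∧ _
    rw [h2]
    exact h1
  · intro hG a b
    obtain ⟨δ, hδ, i₁, h1⟩ := (hiff a b).2 hG
    refine ⟨8 * 2 ^ i₁, fun n hn => ?_⟩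
    have hpos : 0 < 2 ^ i₁ := by positivity
    set l := Nat.log 2 (2 * n) with hl
    have h2 : 2 ^ l ≤ 2 * n := Nat.pow_log_le_self 2 (by omega)
    have h3 : 2 * n < 2 ^ (l + 1) := Nat.lt_pow_succ_log_self (by norm_num) _
    have h4 : i₁ + 3 ≤ l := by
      apply (Nat.le_log_iff_pow_le (by norm_num) (by omega)).2
      rw [pow_add]
      omega
    obtain ⟨i, hi⟩ : ∃ i, l = i + 2 := ⟨l - 2, by omega⟩
    have h5 : 4 * 2 ^ i ≤ 2 * n := by
      rw [hi, pow_add] at h2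
      omega
    have h6 : 2 * n ≤ 8 * 2 ^ i := by
      rw [hi, show i + 2 + 1 = i + 3 by ring, pow_add] at h3
      omega
    have h7 := h1 i (by omega) (2 * n) (even_two_mul n) h5 h6
    have h8 : (0 : ℝ) < pairs (Pool.Agent.Q58.RM.lev B a) (Pool.Agent.Q58.RM.lev B b) (2 ^ i) (2 * n) :=
      lt_of_lt_of_le (mul_pos hδ (hord0 (a + b) (hN1 h5))) h7
    have h9 : 0 < pairs (Pool.Agent.Q58.RM.lev B a) (Pool.Agent.Q58.RM.lev B b) (2 ^ i) (2 * n) := by
      exact_mod_cast h8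
    unfold pairs at h9
    obtain ⟨p, hp1, hp2, hp3, hp4⟩ := Set.nonempty_of_ncard_ne_zero h9.ne'
    have hpi : 0 < 2 ^ i := by positivity
    have hne : p ≠ 2 * n - p := by
      intro heq
      have h10 : 2 * n = 4 * 2 ^ i := by omega
      have h11 : p = 2 ^ (i + 1) := by
        rw [pow_succ]
        omega
      obtain ⟨i', hi'⟩ := hp1
      obtain ⟨-, h12⟩ := Pool.Agent.Q58.RM.P_mem.1 (Pool.Agent.Q58.RM.sub_Ioc h0 ha i' a hi')
      rw [h11] at h12
      have h13 := Nat.Prime.eq_one_of_pow h12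
      omega
    exact ⟨p, hp1, 2 * n - p, hp4, hne, by omega⟩

end Pool.Agent.Results.MP_778b46_nt.NestedRandomPrimes
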