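import Pool.Agent.Q259.PK.Iter2

/-!
# MP_778b46_nt: the pairs (a, 0), with the constant `2 / e ^ γ` and thin sets of indices

Let `U`, `V` be sets of positive integers such that for all large `t` at least `t / (log t) ^ C`
elements of `U` and at least `δ t` elements of `V` are up to `t`. For all large `x` at least

`(2 δ / e ^ γ - ε) x / log log log x`

of the `n ≤ x` are such that `2 n` is a sum of two distinct numbers, the `u`-th `a`-prime and the `v`-th
prime, with `u ∈ U`, `v ∈ V`, in at least `c x / (log x) ^ (a + C + 2)` ways (the expected order of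
magnitude). For `U = V = ℕ` the starting file `AllPairsNearPositive` has, for `b = 0`, `c x / log log log x`
with an unspecified `c > 0` and one representation; the bound is the limit of what holds for all sets of
primes with the counting function of the `a`-primes (`MP_7b7e48_nt.SharpSumsOfPrimeSubsets`).
-/

set_option autoImplicit false

namespace Pool.Agent.Results.MP_778b46_nt.PrimePlusIteratedPrime

open Filter

/-- the `m`-fold iterate of `k ↦ p(k)`, the `k`-th prime -/
noncomputable def ip (m u : ℕ) : ℕ := Nat.iterate (fun k : ℕ => Nat.nth Nat.Prime (k - 1)) m u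

/-- the number of the `(u, v)`, `u ∈ U`, `v ∈ V`, such that the `u`-th `a`-prime and the `v`-th prime
are different and their sum is `2 * n` -/
noncomputable def reps (U V : Set ℕ) (a n : ℕ) : ℕ :=
  Set.ncard {w : ℕ × ℕ | 0 < w.1 ∧ 0 < w.2 ∧ w.1 ∈ U ∧ w.2 ∈ V ∧ ip (a + 1) w.1 ≠ ip 1 w.2 ∧
    ip (a + 1) w.1 + ip 1 w.2 = 2 * n}

/-- **Sums of an `a`-prime and a prime with restricted indices.** -/
theorem result (a C : ℕ) (δ ε : ℝ) (hδ : 0 < δ) (hε : 0 < ε) (U V : Set ℕ)
    (hU : ∀ᶠ t : ℕ in atTop, (t : ℝ) / Real.log t ^ C ≤ Set.ncard {u ∈ U | 1 ≤ u ∧ u ≤ t})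
    (hV : ∀ᶠ t : ℕ in atTop, δ * t ≤ Set.ncard {v ∈ V | 1 ≤ v ∧ v ≤ t}) :
    ∃ c : ℝ, 0 < c ∧ ∀ᶠ x : ℕ in atTop,
    (2 * δ / Real.exp Real.eulerMascheroniConstant - ε) * x / Real.log (Real.log (Real.log x)) ≤
      Set.ncard {n : ℕ | n ≤ x ∧ c * x / Real.log x ^ (a + C + 2) ≤ reps U V a n} :=
  Pool.Agent.Q259.PK.iter_main a C δ ε hδ hε U V hU hV

end Pool.Agent.Results.MP_778b46_nt.PrimePlusIteratedPrime
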